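import Mathlib
import Pool.Agent.Helper844.RF.Group

/-!
# FG-residually finite varieties of groups: necessary conditions

Let `V` be a variety of groups, soluble or not, in which all finitely generated groups are
residually finite. Then every central subgroup `T` of a finitely generated group `G` in `V` has
the following properties: `T / T^p` is finite for every prime `p`, and `T` has no nontrivial
divisible quotients. For the laws this means: if `t 0, t 1, ...` are words in `n` letters and `p`
is a prime, then for some `k < l` the word `(t k) (t l)⁻¹` lies in the normal subgroup generated
by the laws of `V`, all commutators `[x_i, t j]` and all powers `(t j)^p`.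

Proof: a finitely generated group `G` has countably many subgroups of finite index, while an
infinite elementary abelian `p`-group `T / T^p` has uncountably many subgroups `K / T^p` of index
`p`; all these `K` are normal in `G`, and in the residually finite group `G / K` some normal
subgroup of finite index meets the image of `T` trivially.
-/

set_option autoImplicit false

namespace Pool.Agent.Results.MP_364ede_al.CentralSubgroups

open Pool.Agent.Helper844.RFGroup

/-- Necessary conditions for a variety of groups to be FG-residually finite. -/
theorem result (W : Set (FreeGroup ℕ)) (hW : FGResiduallyFinite W) :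
    -- `T / T^p` is finite for central subgroups `T` of finitely generated groups in the variety
    (∀ (G : Type) [Group G], InVariety W G → Group.FG G → ∀ p : ℕ, p.Prime →
      ∀ T : Subgroup G, T ≤ Subgroup.center G → Finite (T ⧸ (powers T p).subgroupOf T)) ∧
    -- central subgroups have no nontrivial divisible quotients
    (∀ (G : Type) [Group G], InVariety W G → Group.FG G → ∀ T K : Subgroup G,
      T ≤ Subgroup.center G → K ≤ T →
      (∀ z ∈ T, ∀ m : ℕ, 0 < m → ∃ w ∈ T, z * (w ^ m)⁻¹ ∈ K) → K = T) ∧
    -- the condition on the laws
    (∀ p : ℕ, p.Prime → ∀ (n : ℕ) (t : ℕ → FreeGroup (Fin n)), ∃ k l, k < l ∧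
      t k * (t l)⁻¹ ∈ Subgroup.normalClosure (values W n ∪ products p t)) := by
  refine ⟨?_, ?_, ?_⟩
  · intro G _ hG hfg p hp T hT
    exact central_finite W hW G hG hfg p hp T hT
  · intro G _ hG hfg T K hT hK hdiv
    exact central_not_divisible W hW G hG hfg T K hT hK hdiv
  · intro p hp n t
    exact sequence_form W hW p hp n t

end Pool.Agent.Results.MP_364ede_al.CentralSubgroups
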